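import Mathlib

/-!
# The xyz-type inequality fails for independent random variables

There are four independent real random variables `X 0, X 1, X 2, X 3` with atomless laws (so that
ties have probability zero) such that, with the constraint list `X 3 < X 0`, `X 3 < X 2`,
the conditional probability of `X 0 < X 1` is `2/5`, and it drops to `1/3` when `X 0 < X 2` is
added to the list.
-/

set_option autoImplicit false

namespace Pool.Agent.Results.MP_aa6114_pr.FourVariables

open MeasureTheory ProbabilityTheory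
open scoped ENNReal

/-- The constraint list `P` holds at `x`: the entry `(i, j, true)` stands for `x i < x j` and the
entry `(i, j, false)` stands for `x i ≤ x j`. -/
def Holds {n : ℕ} (P : Finset (Fin n × Fin n × Bool)) (x : Fin n → ℝ) : Prop :=
  ∀ c ∈ P, if c.2.2 = true then x c.1 < x c.2.1 else x c.1 ≤ x c.2.1

noncomputable section

def lo : Fin 4 → ℝ := ![4, 6, 2, 0]
def hi : Fin 4 → ℝ := ![10, 6, 12, 8]

theorem lo_0 : lo 0 = 4 := rfl
theorem lo_1 : lo 1 = 6 := rfl
theorem lo_2 : lo 2 = 2 := rfl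
theorem lo_3 : lo 3 = 0 := rfl
theorem hi_0 : hi 0 = 10 := rfl
theorem hi_1 : hi 1 = 6 := rfl
theorem hi_2 : hi 2 = 12 := rfl
theorem hi_3 : hi 3 = 8 := rfl

def L (i : Fin 4) : Set ℝ := Set.Ico (lo i) (lo i + 1)
def H (i : Fin 4) : Set ℝ := Set.Ico (hi i) (hi i + 1)

/-- the laws -/
def law (i : Fin 4) : Measure ℝ :=
  (2⁻¹ : ℝ≥0∞) • volume.restrict (L i) + (2⁻¹ : ℝ≥0∞) • volume.restrict (H i)

theorem vol_L (i : Fin 4) : volume (L i) = 1 := by
  unfold L; rw [Real.volume_Ico]; simp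

theorem vol_H (i : Fin 4) : volume (H i) = 1 := by
  unfold H; rw [Real.volume_Ico]; simp

theorem meas_L (i : Fin 4) : MeasurableSet (L i) := measurableSet_Ico
theorem meas_H (i : Fin 4) : MeasurableSet (H i) := measurableSet_Ico

instance (i : Fin 4) : IsProbabilityMeasure (law i) := by
  constructor
  unfold law
  rw [Measure.add_apply, Measure.smul_apply, Measure.smul_apply, Measure.restrict_apply_univ,
    Measure.restrict_apply_univ, vol_L, vol_H]
  simp [ENNReal.inv_two_add_inv_two]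

theorem disj (i : Fin 4) (hi1 : i ≠ 1) : Disjoint (L i) (H i) := by
  rw [Set.disjoint_left]
  intro x hx hy
  fin_cases i
  · simp only [L, H, lo, hi] at hx hy; norm_num at hx hy; linarith [hx.2, hy.1]
  · exact hi1 rfl
  · simp only [L, H, lo, hi] at hx hy; norm_num at hx hy; linarith [hx.2, hy.1]
  · simp only [L, H, lo, hi] at hx hy; norm_num at hx hy; linarith [hx.2, hy.1]

theorem law_L (i : Fin 4) (hi1 : i ≠ 1) : law i (L i) = 2⁻¹ := by
  unfold law
  rw [Measure.add_apply, Measure.smul_apply, Measure.smul_apply, Measure.restrict_apply (meas_L i),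
    Measure.restrict_apply (meas_L i), Set.inter_self, (disj i hi1).inter_eq, vol_L]
  simp

theorem law_H (i : Fin 4) (hi1 : i ≠ 1) : law i (H i) = 2⁻¹ := by
  unfold law
  rw [Measure.add_apply, Measure.smul_apply, Measure.smul_apply, Measure.restrict_apply (meas_H i),
    Measure.restrict_apply (meas_H i), Set.inter_self, (disj i hi1).symm.inter_eq, vol_H]
  simp

theorem law_atom (i : Fin 4) (a : ℝ) : law i {a} = 0 := by
  unfold law
  rw [Measure.add_apply, Measure.smul_apply, Measure.smul_apply, measure_singleton,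
    measure_singleton]
  simp

theorem law_supp (i : Fin 4) : ∀ᵐ y ∂(law i), y ∈ L i ∪ H i := by
  unfold law
  rw [ae_add_measure_iff]
  constructor
  · refine Measure.ae_smul_measure ?_ _
    filter_upwards [ae_restrict_mem (meas_L i)] with y hy using Or.inl hy
  · refine Measure.ae_smul_measure ?_ _
    filter_upwards [ae_restrict_mem (meas_H i)] with y hy using Or.inr hy

/-- the product measure -/
def mu : Measure (Fin 4 → ℝ) := Measure.pi law

instance : IsProbabilityMeasure mu := by unfold mu; infer_instance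

theorem supp : ∀ᵐ x ∂mu, ∀ i, x i ∈ L i ∪ H i := by
  rw [ae_all_iff]
  intro i
  exact (Measure.quasiMeasurePreserving_eval law i).ae (law_supp i)

/-- measure of a box -/
theorem mu_box (A B C D : Set ℝ) :
    mu (Set.univ.pi ![A, B, C, D]) = law 0 A * law 1 B * law 2 C * law 3 D := by
  unfold mu
  rw [Measure.pi_pi, Fin.prod_univ_four]
  rfl

theorem mem_box (A B C D : Set ℝ) (x : Fin 4 → ℝ) :
    x ∈ Set.univ.pi ![A, B, C, D] ↔ x 0 ∈ A ∧ x 1 ∈ B ∧ x 2 ∈ C ∧ x 3 ∈ D := by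
  simp [Set.mem_pi, Fin.forall_fin_succ]

theorem meas_box {A B C D : Set ℝ} (hA : MeasurableSet A) (hB : MeasurableSet B)
    (hC : MeasurableSet C) (hD : MeasurableSet D) :
    MeasurableSet (Set.univ.pi ![A, B, C, D]) := by
  refine MeasurableSet.univ_pi fun i => ?_
  fin_cases i <;> assumption

/-- the constraint list -/
def Pc : Finset (Fin 4 × Fin 4 × Bool) := {(3, 0, true), (3, 2, true)}

theorem holds_iff (x : Fin 4 → ℝ) : Holds Pc x ↔ x 3 < x 0 ∧ x 3 < x 2 := by
  simp [Holds, Pc]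

theorem cases_of {x : Fin 4 → ℝ} (hx : ∀ i, x i ∈ L i ∪ H i) :
    (6 ≤ x 1 ∧ x 1 < 7) ∧ ((4 ≤ x 0 ∧ x 0 < 5) ∨ (10 ≤ x 0 ∧ x 0 < 11)) ∧
    ((2 ≤ x 2 ∧ x 2 < 3) ∨ (12 ≤ x 2 ∧ x 2 < 13)) ∧
    ((0 ≤ x 3 ∧ x 3 < 1) ∨ (8 ≤ x 3 ∧ x 3 < 9)) := by
  have h0 := hx 0
  have h1 := hx 1
  have h2 := hx 2
  have h3 := hx 3
  simp only [L, H, lo_0, lo_1, lo_2, lo_3, hi_0, hi_1, hi_2, hi_3, Set.mem_union,
    Set.mem_Ico] at h0 h1 h2 h3
  norm_num at h0 h1 h2 h3
  exact ⟨h1, h0, h2, h3⟩

theorem L0_iff (y : ℝ) : y ∈ L 0 ↔ 4 ≤ y ∧ y < 5 := by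
  simp only [L, lo_0, lo_3, Set.mem_Ico]; norm_num
theorem H0_iff (y : ℝ) : y ∈ H 0 ↔ 10 ≤ y ∧ y < 11 := by
  simp only [H, hi_0, hi_2, hi_3, Set.mem_Ico]; norm_num
theorem H2_iff (y : ℝ) : y ∈ H 2 ↔ 12 ≤ y ∧ y < 13 := by
  simp only [H, hi_0, hi_2, hi_3, Set.mem_Ico]; norm_num
theorem L3_iff (y : ℝ) : y ∈ L 3 ↔ 0 ≤ y ∧ y < 1 := by
  simp only [L, lo_0, lo_3, Set.mem_Ico]; norm_num
theorem H3_iff (y : ℝ) : y ∈ H 3 ↔ 8 ≤ y ∧ y < 9 := by
  simp only [H, hi_0, hi_2, hi_3, Set.mem_Ico]; norm_num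

theorem val_P : mu {x | Holds Pc x} = 5 / 8 := by
  have e : {x : Fin 4 → ℝ | Holds Pc x} =ᵐ[mu]
      (Set.univ.pi ![Set.univ, Set.univ, Set.univ, L 3] ∪
        Set.univ.pi ![H 0, Set.univ, H 2, H 3] : Set (Fin 4 → ℝ)) := by
    rw [Filter.eventuallyEq_set]
    filter_upwards [supp] with x hx
    obtain ⟨c1, c0, c2, c3⟩ := cases_of hx
    rw [Set.mem_union, mem_box, mem_box, holds_iff, L3_iff, H0_iff, H2_iff, H3_iff]
    simp only [Set.mem_univ, true_and]
    constructor
    · rintro ⟨h1, h2⟩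
      rcases c3 with c3 | c3
      · exact Or.inl c3
      · refine Or.inr ⟨?_, ?_, c3⟩
        · rcases c0 with c0 | c0
          · exfalso; linarith [c0.2, c3.1]
          · exact c0
        · rcases c2 with c2 | c2
          · exfalso; linarith [c2.2, c3.1]
          · exact c2
    · rintro (h | ⟨h1, h2, h3⟩)
      · constructor
        · rcases c0 with c0 | c0 <;> linarith [c0.1, h.2]
        · rcases c2 with c2 | c2 <;> linarith [c2.1, h.2]
      · exact ⟨by linarith [h1.1, h3.2], by linarith [h2.1, h3.2]⟩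
  rw [measure_congr e, measure_union ?_ (meas_box (meas_H 0) MeasurableSet.univ (meas_H 2)
    (meas_H 3)), mu_box, mu_box, measure_univ, measure_univ, measure_univ, law_L 3 (by decide),
    law_H 0 (by decide), law_H 2 (by decide), law_H 3 (by decide)]
  · rw [← ENNReal.toReal_eq_toReal_iff' (by finiteness) (by finiteness)]
    rw [ENNReal.toReal_add (by finiteness) (by finiteness)]
    simp [ENNReal.toReal_mul, ENNReal.toReal_div]
    norm_num
  · rw [Set.disjoint_left]
    intro x hx hy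
    rw [mem_box] at hx hy
    exact Set.disjoint_left.mp (disj 3 (by decide)) hx.2.2.2 hy.2.2.2

theorem val_AP : mu ({x | Holds Pc x} ∩ {x | x 0 < x 1}) = 1 / 4 := by
  have e : ({x : Fin 4 → ℝ | Holds Pc x} ∩ {x | x 0 < x 1} : Set (Fin 4 → ℝ)) =ᵐ[mu]
      (Set.univ.pi ![L 0, Set.univ, Set.univ, L 3] : Set (Fin 4 → ℝ)) := by
    rw [Filter.eventuallyEq_set]
    filter_upwards [supp] with x hx
    obtain ⟨c1, c0, c2, c3⟩ := cases_of hx
    rw [Set.mem_inter_iff, mem_box, Set.mem_ofPred_eq, Set.mem_ofPred_eq, holds_iff, L3_iff,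
      L0_iff]
    simp only [Set.mem_univ, true_and]
    constructor
    · rintro ⟨⟨h1, h2⟩, h3⟩
      have k0 : 4 ≤ x 0 ∧ x 0 < 5 := by
        rcases c0 with c0 | c0
        · exact c0
        · exfalso; linarith [c0.1, c1.2]
      refine ⟨k0, ?_⟩
      rcases c3 with c3 | c3
      · exact c3
      · exfalso; linarith [c3.1, k0.2]
    · rintro ⟨h1, h2⟩
      refine ⟨⟨by linarith [h1.1, h2.2], ?_⟩, by linarith [h1.2, c1.1]⟩
      rcases c2 with c2 | c2 <;> linarith [c2.1, h2.2]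
  rw [measure_congr e, mu_box, measure_univ, measure_univ, law_L 3 (by decide),
    law_L 0 (by decide)]
  rw [← ENNReal.toReal_eq_toReal_iff' (by finiteness) (by finiteness)]
  simp [ENNReal.toReal_mul]
  norm_num

theorem val_BP : mu ({x | Holds Pc x} ∩ {x | x 0 < x 2}) = 3 / 8 := by
  have e : ({x : Fin 4 → ℝ | Holds Pc x} ∩ {x | x 0 < x 2} : Set (Fin 4 → ℝ)) =ᵐ[mu]
      (Set.univ.pi ![Set.univ, Set.univ, H 2, L 3] ∪
        Set.univ.pi ![H 0, Set.univ, H 2, H 3] : Set (Fin 4 → ℝ)) := by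
    rw [Filter.eventuallyEq_set]
    filter_upwards [supp] with x hx
    obtain ⟨c1, c0, c2, c3⟩ := cases_of hx
    rw [Set.mem_inter_iff, Set.mem_union, mem_box, mem_box, Set.mem_ofPred_eq, Set.mem_ofPred_eq,
      holds_iff, L3_iff, H0_iff, H2_iff, H3_iff]
    simp only [Set.mem_univ, true_and]
    constructor
    · rintro ⟨⟨h1, h2⟩, h3⟩
      have k2 : 12 ≤ x 2 ∧ x 2 < 13 := by
        rcases c2 with c2 | c2
        · exfalso; rcases c0 with c0 | c0 <;> linarith [c0.1, c2.2]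
        · exact c2
      rcases c3 with c3 | c3
      · exact Or.inl ⟨k2, c3⟩
      · refine Or.inr ⟨?_, k2, c3⟩
        rcases c0 with c0 | c0
        · exfalso; linarith [c0.2, c3.1]
        · exact c0
    · rintro (⟨h1, h2⟩ | ⟨h1, h2, h3⟩)
      · refine ⟨⟨?_, by linarith [h1.1, h2.2]⟩, ?_⟩
        · rcases c0 with c0 | c0 <;> linarith [c0.1, h2.2]
        · rcases c0 with c0 | c0 <;> linarith [c0.2, h1.1]
      · exact ⟨⟨by linarith [h1.1, h3.2], by linarith [h2.1, h3.2]⟩, by linarith [h1.2, h2.1]⟩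
  rw [measure_congr e, measure_union ?_ (meas_box (meas_H 0) MeasurableSet.univ (meas_H 2)
    (meas_H 3)), mu_box, mu_box, measure_univ, measure_univ, law_L 3 (by decide),
    law_H 0 (by decide), law_H 2 (by decide), law_H 3 (by decide)]
  · rw [← ENNReal.toReal_eq_toReal_iff' (by finiteness) (by finiteness)]
    rw [ENNReal.toReal_add (by finiteness) (by finiteness)]
    simp [ENNReal.toReal_mul, ENNReal.toReal_div]
    norm_num
  · rw [Set.disjoint_left]
    intro x hx hy
    rw [mem_box] at hx hy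
    exact Set.disjoint_left.mp (disj 3 (by decide)) hx.2.2.2 hy.2.2.2

theorem val_ABP : mu ({x | Holds Pc x} ∩ {x | x 0 < x 2} ∩ {x | x 0 < x 1}) = 1 / 8 := by
  have e : ({x : Fin 4 → ℝ | Holds Pc x} ∩ {x | x 0 < x 2} ∩ {x | x 0 < x 1} :
      Set (Fin 4 → ℝ)) =ᵐ[mu] (Set.univ.pi ![L 0, Set.univ, H 2, L 3] : Set (Fin 4 → ℝ)) := by
    rw [Filter.eventuallyEq_set]
    filter_upwards [supp] with x hx
    obtain ⟨c1, c0, c2, c3⟩ := cases_of hx
    rw [Set.mem_inter_iff, Set.mem_inter_iff, mem_box, Set.mem_ofPred_eq, Set.mem_ofPred_eq,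
      Set.mem_ofPred_eq, holds_iff, L3_iff, L0_iff, H2_iff]
    simp only [Set.mem_univ, true_and]
    constructor
    · rintro ⟨⟨⟨h1, h2⟩, h3⟩, h4⟩
      have k0 : 4 ≤ x 0 ∧ x 0 < 5 := by
        rcases c0 with c0 | c0
        · exact c0
        · exfalso; linarith [c0.1, c1.2]
      refine ⟨k0, ?_, ?_⟩
      · rcases c2 with c2 | c2
        · exfalso; linarith [c2.2, k0.1]
        · exact c2
      · rcases c3 with c3 | c3
        · exact c3
        · exfalso; linarith [c3.1, k0.2]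
    · rintro ⟨h1, h2, h3⟩
      exact ⟨⟨⟨by linarith [h1.1, h3.2], by linarith [h2.1, h3.2]⟩, by linarith [h1.2, h2.1]⟩,
        by linarith [h1.2, c1.1]⟩
  rw [measure_congr e, mu_box, measure_univ, law_L 3 (by decide), law_L 0 (by decide),
    law_H 2 (by decide)]
  rw [← ENNReal.toReal_eq_toReal_iff' (by finiteness) (by finiteness)]
  simp [ENNReal.toReal_mul]
  norm_num

theorem meas_lt (i j : Fin 4) : MeasurableSet {x : Fin 4 → ℝ | x i < x j} :=
  measurableSet_lt (measurable_pi_apply i) (measurable_pi_apply j)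

theorem meas_P : MeasurableSet {x : Fin 4 → ℝ | Holds Pc x} := by
  have : {x : Fin 4 → ℝ | Holds Pc x} = {x | x 3 < x 0} ∩ {x | x 3 < x 2} := by
    ext x
    exact holds_iff x
  rw [this]
  exact (meas_lt 3 0).inter (meas_lt 3 2)

end

theorem result : ∃ (Ω : Type) (_ : MeasurableSpace Ω) (μ : Measure Ω) (_ : IsProbabilityMeasure μ)
    (X : Fin 4 → Ω → ℝ) (P : Finset (Fin 4 × Fin 4 × Bool)),
    (∀ i, Measurable (X i)) ∧ iIndepFun X μ ∧ (∀ i a, μ (X i ⁻¹' {a}) = 0) ∧
    (∀ c ∈ P, c.1 ≠ c.2.1) ∧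
    0 < μ ({ω | Holds P (fun i => X i ω)} ∩ {ω | X 0 ω < X 2 ω}) ∧
    μ[{ω | X 0 ω < X 1 ω} | {ω | Holds P (fun i => X i ω)}] = 2 / 5 ∧
    μ[{ω | X 0 ω < X 1 ω} | {ω | Holds P (fun i => X i ω)} ∩ {ω | X 0 ω < X 2 ω}] = 1 / 3 := by
  refine ⟨Fin 4 → ℝ, inferInstance, mu, inferInstance, fun i x => x i, Pc,
    fun i => measurable_pi_apply i, ?_, ?_, ?_, ?_, ?_, ?_⟩
  · exact iIndepFun_pi (X := fun _ => id) (fun i => aemeasurable_id)
  · intro i a
    have h := (measurePreserving_eval law i).measure_preimage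
      (measurableSet_singleton a).nullMeasurableSet
    have h2 : mu (Function.eval i ⁻¹' {a}) = law i {a} := h
    rw [law_atom] at h2
    exact h2
  · intro c hc
    simp only [Pc, Finset.mem_insert, Finset.mem_singleton] at hc
    rcases hc with rfl | rfl <;> decide
  · rw [val_BP]
    norm_num
  · rw [cond_apply meas_P, val_P, val_AP]
    rw [← ENNReal.toReal_eq_toReal_iff' (ENNReal.mul_ne_top (by simp) (by finiteness))
      (by finiteness)]
    simp [ENNReal.toReal_mul, ENNReal.toReal_div, ENNReal.toReal_inv]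
    norm_num
  · rw [cond_apply (meas_P.inter (meas_lt 0 2)), val_BP, val_ABP]
    rw [← ENNReal.toReal_eq_toReal_iff' (ENNReal.mul_ne_top (by simp) (by finiteness))
      (by finiteness)]
    simp [ENNReal.toReal_mul, ENNReal.toReal_div, ENNReal.toReal_inv]
    norm_num

end Pool.Agent.Results.MP_aa6114_pr.FourVariables
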